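import Pool.Agent.Helper21.TR.BadDefs

/-!
Bad places with a diagonal Frobenius whose entries are powers of two, and a unipotent whose
kernel and image are coordinate subspaces.
-/

open Module MTPairs

namespace TR

section supp
variable {K : Type*} [Field K] {m : Type*} [Fintype m] [DecidableEq m]

/-- The vectors supported on `S`. -/
def suppS (K : Type*) [Field K] {m : Type*} (S : Finset m) : Submodule K (m → K) where
  carrier := {v | ∀ x, x ∉ S → v x = 0}
  zero_mem' := fun _ _ => rfl
  add_mem' := fun {v w} hv hw x hx => by rw [Pi.add_apply, hv x hx, hw x hx, add_zero]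
  smul_mem' := fun c v hv x hx => by rw [Pi.smul_apply, hv x hx, smul_zero]

omit [Fintype m] [DecidableEq m] in
lemma mem_suppS {S : Finset m} {v : m → K} : v ∈ suppS K S ↔ ∀ x, x ∉ S → v x = 0 := Iff.rfl

omit [Fintype m] in
lemma finrank_suppS (S : Finset m) : finrank K (suppS K S) = S.card := by
  let e : suppS K S ≃ₗ[K] (S → K) :=
    { toFun := fun v x => v.1 x.1
      map_add' := fun v w => rfl
      map_smul' := fun c v => rfl
      invFun := fun w => ⟨fun x => if h : x ∈ S then w ⟨x, h⟩ else 0, fun x hx => dif_neg hx⟩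
      left_inv := by
        intro v
        apply Subtype.ext
        funext x
        by_cases h : x ∈ S
        · simp [h]
        · simp [h, v.2 x h]
      right_inv := by
        intro w
        funext x
        simp }
  rw [LinearEquiv.finrank_eq e, Module.finrank_fintype_fun_eq_card, Fintype.card_coe]

omit [Fintype m] in
lemma suppS_inf (S T : Finset m) : suppS K S ⊓ suppS K T = suppS K (S ∩ T) := by
  ext v
  simp only [Submodule.mem_inf, mem_suppS, Finset.mem_inter]
  constructor
  · rintro ⟨h1, h2⟩ x hx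
    by_cases h : x ∈ S
    · exact h2 x fun h' => hx ⟨h, h'⟩
    · exact h1 x h
  · intro h
    exact ⟨fun x hx => h x fun h' => hx h'.1, fun x hx => h x fun h' => hx h'.2⟩

lemma diag_pow (γ : m → K) (a : K) (k : ℕ) (v : m → K) :
    (((Matrix.diagonal γ).mulVecLin - a • (1 : Module.End K (m → K))) ^ k) v =
      fun x => (γ x - a) ^ k * v x := by
  induction k generalizing v with
  | zero => simp
  | succ k ih =>
    rw [pow_succ, Module.End.mul_apply, ih]
    funext x
    simp only [LinearMap.sub_apply, Matrix.mulVecLin_apply, Matrix.mulVec_diagonal,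
      LinearMap.smul_apply, Module.End.one_apply, Pi.sub_apply, Pi.smul_apply, smul_eq_mul]
    ring

open Classical in
lemma maxGen_diag (γ : m → K) (a : K) :
    Module.End.maxGenEigenspace (Matrix.diagonal γ).mulVecLin a =
      suppS K (Finset.univ.filter fun x => γ x = a) := by
  ext v
  rw [Module.End.mem_maxGenEigenspace, mem_suppS]
  constructor
  · rintro ⟨k, hk⟩ x hx
    rw [diag_pow] at hk
    have h := congrFun hk x
    simp only [Finset.mem_filter, Finset.mem_univ, true_and] at hx
    simpa [pow_ne_zero k (sub_ne_zero.2 hx)] using h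
  · intro h
    refine ⟨1, ?_⟩
    rw [diag_pow]
    funext x
    by_cases hx : γ x = a
    · simp [hx]
    · simp [h x (by simpa using hx)]

end supp

section bad
variable {K : Type*} [Field K] [CharZero K] {m : Type*} [Fintype m] [DecidableEq m]

omit [Fintype m] [DecidableEq m] in
lemma two_zpow_inj {z z' : ℤ} (h : (2 : K) ^ z = 2 ^ z') : z = z' := by
  have h1 : (((2 : ℚ) ^ z : ℚ) : K) = ((2 : ℚ) ^ z' : ℚ) := by
    push_cast
    exact h
  have h2 : (2 : ℚ) ^ z = 2 ^ z' := Rat.cast_injective h1
  exact zpow_right_injective₀ (by norm_num) (by norm_num) h2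

/-- A bad place from a diagonal Frobenius with entries `2 ^ ex x` and coordinate subspaces: the
kernel of `u - 1` is supported on `A` and its image on `B`. -/
theorem isBad_of_supp {J : Matrix m m K} {u g : Matrix.GeneralLinearGroup m K} {ex : m → ℤ}
    {A B : Finset m} {e0 : ℤ} {d : ℕ}
    (hg : (g : Matrix m m K) = Matrix.diagonal fun x => (2 : K) ^ ex x)
    (hA : LinearMap.ker ((u : Matrix m m K) - 1).mulVecLin = suppS K A)
    (hB : (⊤ : Submodule K (m → K)).map ((u : Matrix m m K) - 1).mulVecLin = suppS K B)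
    (hBA : B ⊆ A) (hB0 : B.Nonempty) {z0 : ℤ} (hz0 : ∀ x ∈ B, ex x = z0)
    (hJ : ∀ x y, J x y ≠ 0 → ex x + ex y = e0)
    (hd : d ∣ B.card)
    (hd1 : ∀ z, z + z ≠ e0 → d ∣ ((A \ B).filter fun x => ex x = z).card)
    (hd2 : ∀ z, z + z = e0 → 2 * d ∣ ((A \ B).filter fun x => ex x = z).card)
    (hmax : ∀ e : ℕ, e ∣ B.card →
      (∀ z, z + z ≠ e0 → e ∣ ((A \ B).filter fun x => ex x = z).card) → e ∣ d) :
    IsBad J u g ⊤ B.card d := by
  classical
  have two0 : (2 : K) ≠ 0 := two_ne_zero
  have hmlt : ∀ a : K, mlt (u : Matrix m m K) (g : Matrix m m K) ⊤ a =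
      ((A \ B).filter fun x => (2 : K) ^ ex x = a).card := by
    intro a
    unfold mlt
    rw [top_inf_eq, hA, hB, hg, maxGen_diag, suppS_inf, suppS_inf, finrank_suppS, finrank_suppS]
    have e1 : ∀ S : Finset m, S ∩ Finset.univ.filter (fun x => (2 : K) ^ ex x = a) =
        S.filter fun x => (2 : K) ^ ex x = a := by
      intro S
      ext x
      simp
    rw [e1, e1]
    have e2 : (A.filter fun x => (2 : K) ^ ex x = a).card =
        ((A \ B).filter fun x => (2 : K) ^ ex x = a).card +
        (B.filter fun x => (2 : K) ^ ex x = a).card := by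
      rw [← Finset.card_union_of_disjoint, ← Finset.filter_union, Finset.sdiff_union_of_subset hBA]
      exact Finset.disjoint_filter_filter Finset.sdiff_disjoint
    rw [e2]
    omega
  have hmz : ∀ z : ℤ, mlt (u : Matrix m m K) (g : Matrix m m K) ⊤ ((2 : K) ^ z) =
      ((A \ B).filter fun x => ex x = z).card := by
    intro z
    rw [hmlt]
    congr 1
    apply Finset.filter_congr
    intro x _
    constructor
    · exact fun h => two_zpow_inj h
    · exact fun h => by rw [h]
  have hcases : ∀ a : K, (∃ z : ℤ, a = (2 : K) ^ z) ∨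
      mlt (u : Matrix m m K) (g : Matrix m m K) ⊤ a = 0 := by
    intro a
    by_cases h : ∃ z : ℤ, a = (2 : K) ^ z
    · exact Or.inl h
    · right
      rw [hmlt, Finset.card_eq_zero, Finset.filter_eq_empty_iff]
      intro x _ hx
      exact h ⟨ex x, hx.symm⟩
  have hsq : ∀ z : ℤ, (2 : K) ^ z * 2 ^ z = 2 ^ e0 ↔ z + z = e0 := by
    intro z
    rw [← zpow_add₀ two0]
    constructor
    · exact fun h => two_zpow_inj h
    · exact fun h => by rw [h]
  refine ⟨Finset.card_pos.2 hB0, ⟨?_, by rw [hB, finrank_suppS]⟩, ?_, ⟨(2 : K) ^ z0, ?_⟩,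
    (2 : K) ^ e0, ?_, ⟨hd, fun a => ⟨fun ha => ?_, fun ha => ?_⟩⟩, ?_⟩
  · intro v _
    have h1 : ((u : Matrix m m K) - 1).mulVecLin v ∈ suppS K B := by
      rw [← hB]
      exact Submodule.mem_map_of_mem trivial
    have h2 : ((u : Matrix m m K) - 1).mulVecLin v ∈ suppS K A := fun x hx =>
      h1 x fun h => hx (hBA h)
    rw [← hA] at h2
    exact h2
  · intro a b v _ w _ hv hw hga hgb n hn hab
    obtain ⟨x, hx⟩ := Function.ne_iff.1 hv
    obtain ⟨y, hy⟩ := Function.ne_iff.1 hw
    have h1 := congrFun hga x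
    have h2 := congrFun hgb y
    rw [hg, Matrix.mulVec_diagonal, Pi.smul_apply, smul_eq_mul] at h1 h2
    have h3 : (2 : K) ^ ex x = a := mul_right_cancel₀ hx h1
    have h4 : (2 : K) ^ ex y = b := mul_right_cancel₀ hy h2
    rw [← h3, ← h4, ← zpow_natCast, ← zpow_natCast, ← zpow_mul, ← zpow_mul] at hab
    have h5 := two_zpow_inj hab
    have h6 : ex x = ex y := mul_right_cancel₀ (by exact_mod_cast hn.ne') h5
    rw [← h3, ← h4, h6]
  · intro v _
    rw [hg, maxGen_diag]
    have h1 : ((u : Matrix m m K) - 1).mulVecLin v ∈ suppS K B := by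
      rw [← hB]
      exact Submodule.mem_map_of_mem trivial
    intro x hx
    apply h1 x
    intro h
    apply hx
    simp [hz0 x h]
  · rw [hg, Matrix.diagonal_transpose]
    ext x y
    rw [Matrix.mul_diagonal, Matrix.diagonal_mul, Matrix.smul_apply, smul_eq_mul]
    by_cases h : J x y = 0
    · simp [h]
    · rw [← hJ x y h, zpow_add₀ two0]
      ring
  · rcases hcases a with ⟨z, rfl⟩ | h0
    · rw [hmz]
      exact hd1 z fun h => ha ((hsq z).2 h)
    · rw [h0]
      exact dvd_zero _
  · rcases hcases a with ⟨z, rfl⟩ | h0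
    · rw [hmz]
      exact hd2 z ((hsq z).1 ha)
    · rw [h0]
      exact dvd_zero _
  · rintro e ⟨he1, he2⟩
    refine hmax e he1 fun z hz => ?_
    have := (he2 ((2 : K) ^ z)).1 fun h => hz ((hsq z).1 h)
    rwa [hmz] at this

end bad

end TR
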