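import Pool.Agent.Helper21.MT.Sharp2

/-!
Quadratic unipotents of the orthogonal factor (block E1 of MP_b8862a_ag).
-/

open Module MTPairs
open scoped Kronecker

namespace TR

namespace E1

variable {K : Type*} [Field K] {b : ℕ}

/-- The involution exchanging `2 i` and `2 i + 1` below `2 s`. -/
def sg (s : ℕ) (hs : 2 * s ≤ b) (k : Fin b) : Fin b :=
  if h : k.val < 2 * s then
    (if h2 : k.val % 2 = 0 then ⟨k.val + 1, by omega⟩ else ⟨k.val - 1, by omega⟩) else k

/-- The signs. -/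
def cf (K : Type*) [Field K] {b : ℕ} (s : ℕ) (k : Fin b) : K :=
  if k.val < 2 * s then (if k.val % 2 = 0 then 1 else -1) else 0

lemma sg_val (s : ℕ) (hs : 2 * s ≤ b) (k : Fin b) :
    (sg s hs k).val = if k.val < 2 * s then (if k.val % 2 = 0 then k.val + 1 else k.val - 1)
      else k.val := by
  unfold sg
  split_ifs <;> rfl

lemma sg_sg (s : ℕ) (hs : 2 * s ≤ b) (k : Fin b) : sg s hs (sg s hs k) = k := by
  apply Fin.ext
  rw [sg_val, sg_val]
  split_ifs <;> omega

lemma cf_sg (s : ℕ) (hs : 2 * s ≤ b) (k : Fin b) : cf K s (sg s hs k) = - cf K s k := by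
  unfold cf
  rw [sg_val]
  have : (k.val < 2 * s ∨ ¬ k.val < 2 * s) ∧ (k.val % 2 = 0 ∨ k.val % 2 = 1) := by omega
  obtain ⟨h1 | h1, h2 | h2⟩ := this
  · have e1 : k.val + 1 < 2 * s := by omega
    have e2 : ¬ (k.val + 1) % 2 = 0 := by omega
    simp [h1, h2, e1]
    omega
  · have e1 : k.val - 1 < 2 * s := by omega
    have e2 : (k.val - 1) % 2 = 0 := by omega
    simp [h1, h2, e1, e2]
  · simp [h1]
  · simp [h1]

/-- The nilpotent element. -/
def Xm (K : Type*) [Field K] {b : ℕ} (s : ℕ) (hs : 2 * s ≤ b) :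
    Matrix (Fin 2 × Fin b) (Fin 2 × Fin b) K :=
  fun p q => if p.1 = 0 ∧ q = (1, sg s hs p.2) then cf K s p.2 else 0

lemma Dd_mul_Xm (s : ℕ) (hs : 2 * s ≤ b) :
    Dd K (fun _ : Fin b => (0 : Fin 2)) * Xm K s hs = Xm K s hs := by
  ext p q
  rw [Dd, Matrix.diagonal_mul]
  unfold Xm
  by_cases h : p.1 = 0 <;> simp [h]

lemma Xm_mul_Dd (s : ℕ) (hs : 2 * s ≤ b) :
    Xm K s hs * Dd K (fun _ : Fin b => (0 : Fin 2)) = 0 := by
  ext p q
  rw [Dd, Matrix.mul_diagonal]
  unfold Xm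
  by_cases h : q.1 = 0
  · have : ¬ (p.1 = 0 ∧ q = (1, sg s hs p.2)) := by
      rintro ⟨-, h2⟩
      rw [h2] at h
      exact absurd h (by simp)
    simp [this]
  · simp [h]

lemma Xm_sq (s : ℕ) (hs : 2 * s ≤ b) : Xm K s hs * Xm K s hs = 0 := by
  nth_rewrite 2 [← Dd_mul_Xm]
  rw [← Matrix.mul_assoc, Xm_mul_Dd, Matrix.zero_mul]

lemma Xm_skew (s : ℕ) (hs : 2 * s ≤ b) :
    (Xm K s hs).transpose * Qm K b + Qm K b * Xm K s hs = 0 := by
  have := skew_of_entries (M := Xm K s hs) (N := 0) (by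
    rintro ⟨a1, a2⟩ ⟨c1, c2⟩
    simp only [Xm, tau, Matrix.zero_apply, Prod.mk.injEq]
    by_cases h : a1 = 0 ∧ c1 = 1 ∧ c2 = sg s hs a2
    · obtain ⟨rfl, rfl, rfl⟩ := h
      rw [if_pos ⟨rfl, rfl, rfl⟩, if_pos ⟨by decide, by decide, (sg_sg s hs a2).symm⟩, cf_sg]
      ring
    · rw [if_neg h, if_neg, add_zero]
      rintro ⟨h1, h2, h3⟩
      apply h
      refine ⟨?_, ?_, ?_⟩
      · revert h2; fin_cases a1 <;> simp
      · revert h1; fin_cases c1 <;> simp
      · rw [h3, sg_sg])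
  rwa [mul_zero] at this

lemma add_mem (s : ℕ) (hs : 2 * s ≤ b) :
    Dd K (fun _ : Fin b => (0 : Fin 2)) + Xm K s hs ∈ LagSet (Qm K b) :=
  lag_add (Dd_mem _) (Dd_mul_Xm s hs) (Xm_mul_Dd s hs) (Xm_sq s hs) (Xm_skew s hs)

lemma Xm_mulVec (s : ℕ) (hs : 2 * s ≤ b) (v : Fin 2 × (Fin 2 × Fin b) → K) (i : Fin 2)
    (p : Fin 2 × Fin b) :
    ((1 : Matrix (Fin 2) (Fin 2) K) ⊗ₖ Xm K s hs).mulVec v (i, p) =
      if p.1 = 0 then cf K s p.2 * v (i, (1, sg s hs p.2)) else 0 := by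
  rw [Matrix.mulVec, dotProduct, Fintype.sum_prod_type]
  have h1 : ∀ j : Fin 2, ∑ q : Fin 2 × Fin b,
      ((1 : Matrix (Fin 2) (Fin 2) K) ⊗ₖ Xm K s hs) (i, p) (j, q) * v (j, q) =
      if i = j then (if p.1 = 0 then cf K s p.2 * v (j, (1, sg s hs p.2)) else 0) else 0 := by
    intro j
    by_cases hij : i = j
    · subst hij
      by_cases hp : p.1 = 0
      · rw [if_pos rfl, if_pos hp, Finset.sum_eq_single (1, sg s hs p.2)]
        · simp [Matrix.kroneckerMap_apply, Xm, hp]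
        · intro q _ hq
          simp [Matrix.kroneckerMap_apply, Xm, hq]
        · intro h; exact absurd (Finset.mem_univ _) h
      · rw [if_pos rfl, if_neg hp]
        apply Finset.sum_eq_zero
        intro q _
        simp [Matrix.kroneckerMap_apply, Xm, hp]
    · rw [if_neg hij]
      apply Finset.sum_eq_zero
      intro q _
      simp [Matrix.kroneckerMap_apply, Matrix.one_apply_ne hij]
  rw [Finset.sum_congr rfl (fun j _ => h1 j)]
  simp

end E1

open E1

/-- E1: in the group SL_2 (x) SO_2b of Sharp.lean, quadratic unipotents of SO_2b of rank 2s on K^2b. -/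
theorem exists_quad_so (K : Type*) [Field K] [CharZero K] {b s : ℕ} (hb : 2 ≤ b) (hs : 2 * s ≤ b) :
    ∃ u ∈ GenG (Gens K b), IsQuadraticOn u ⊤ (4 * s) := by
  have hP1 : (1 : Matrix (Fin 2) (Fin 2) K) ⊗ₖ Dd K (fun _ : Fin b => (0 : Fin 2)) ∈ Gens K b :=
    Or.inr ⟨_, Dd_mem _, rfl⟩
  have hP2 : (1 : Matrix (Fin 2) (Fin 2) K) ⊗ₖ
      (Dd K (fun _ : Fin b => (0 : Fin 2)) + Xm K s hs) ∈ Gens K b :=
    Or.inr ⟨_, add_mem s hs, rfl⟩
  obtain ⟨g1, hg1, hg1'⟩ := (GenG_cochar (Gens_idem _ hP2) hP2).2 2 two_ne_zero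
  obtain ⟨g2, hg2, hg2'⟩ := (GenG_cochar (Gens_idem _ hP1) hP1).2 2⁻¹ (inv_ne_zero two_ne_zero)
  have hDD : Dd K (fun _ : Fin b => (0 : Fin 2)) * Dd K (fun _ : Fin b => (0 : Fin 2)) =
      Dd K (fun _ : Fin b => (0 : Fin 2)) := (Dd_mem (K := K) (fun _ : Fin b => (0 : Fin 2))).1
  have hXD := Xm_mul_Dd (K := K) s hs
  have hu : ((g1 * g2 : Matrix.GeneralLinearGroup (Fin 2 × (Fin 2 × Fin b)) K) :
      Matrix _ _ K) - 1 = (1 : Matrix (Fin 2) (Fin 2) K) ⊗ₖ Xm K s hs := by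
    generalize Dd K (fun _ : Fin b => (0 : Fin 2)) = D at *
    generalize Xm K s hs = X at *
    have e1 : ∀ (t : K) (P : Matrix (Fin 2 × Fin b) (Fin 2 × Fin b) K),
        t • ((1 : Matrix (Fin 2) (Fin 2) K) ⊗ₖ P) + (1 - (1 : Matrix (Fin 2) (Fin 2) K) ⊗ₖ P) =
        (1 : Matrix (Fin 2) (Fin 2) K) ⊗ₖ (t • P + (1 - P)) := by
      intro t P
      rw [Matrix.kronecker_add, Matrix.kronecker_smul, kron_sub, Matrix.one_kronecker_one]
    rw [Units.val_mul, hg1', hg2', e1, e1, ← Matrix.mul_kronecker_mul, one_mul]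
    have e3 : ((2 : K) • (D + X) + (1 - (D + X))) * ((2⁻¹ : K) • D + (1 - D)) = X + 1 := by
      have h1 : ((2 : K) • (D + X) + (1 - (D + X))) = 1 + D + X := by
        rw [two_smul]; abel
      rw [h1]
      have h2 : (1 + D + X) * ((2⁻¹ : K) • D + (1 - D)) =
          (2⁻¹ : K) • D + 1 - D + ((2⁻¹ : K) • (D * D) + D - D * D) +
          ((2⁻¹ : K) • (X * D) + X - X * D) := by
        simp only [add_mul, mul_add, mul_sub, one_mul, mul_one, mul_smul_comm, smul_add]
        abel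
      rw [h2, hDD, hXD]
      have h3 : (2⁻¹ : K) • D + (2⁻¹ : K) • D = D := by
        rw [← add_smul]
        have : (2⁻¹ : K) + 2⁻¹ = 1 := by norm_num
        rw [this, one_smul]
      calc (2⁻¹ : K) • D + 1 - D + ((2⁻¹ : K) • D + D - D) + ((2⁻¹ : K) • 0 + X - 0)
          = ((2⁻¹ : K) • D + (2⁻¹ : K) • D) - D + (X + 1) := by rw [smul_zero]; abel
        _ = X + 1 := by rw [h3]; abel
    rw [e3, Matrix.kronecker_add, Matrix.one_kronecker_one]
    abel
  refine ⟨g1 * g2, (GenG (Gens K b)).mul_mem hg1 hg2, ?_, ?_⟩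
  · intro v _
    rw [hu, Matrix.mulVec_mulVec, ← Matrix.mul_kronecker_mul, Xm_sq]
    simp
  · rw [hu]
    let f : (Fin 2 × Fin (2 * s) → K) →ₗ[K] (Fin 2 × (Fin 2 × Fin b) → K) :=
      { toFun := fun w x => if h : x.2.1 = 0 ∧ x.2.2.val < 2 * s then w (x.1, ⟨x.2.2.val, h.2⟩)
          else 0
        map_add' := by
          intro w w'; ext x
          by_cases hx : x.2.1 = 0 ∧ x.2.2.val < 2 * s <;> simp [hx]
        map_smul' := by
          intro c w; ext x
          by_cases hx : x.2.1 = 0 ∧ x.2.2.val < 2 * s <;> simp [hx] }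
    have hf : Function.Injective f := by
      intro w w' h
      ext ⟨i, k⟩
      have := congrFun h (i, (0, ⟨k.val, by omega⟩))
      simpa [f] using this
    have he : (⊤ : Submodule K (Fin 2 × (Fin 2 × Fin b) → K)).map
        ((1 : Matrix (Fin 2) (Fin 2) K) ⊗ₖ Xm K s hs).mulVecLin = LinearMap.range f := by
      apply le_antisymm
      · rintro _ ⟨v, -, rfl⟩
        refine ⟨fun x => cf K s (⟨x.2.val, by omega⟩ : Fin b) *
          v (x.1, (1, sg s hs ⟨x.2.val, by omega⟩)), ?_⟩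
        ext ⟨i, e, k⟩
        rw [Matrix.mulVecLin_apply, Xm_mulVec]
        change dite (e = 0 ∧ k.val < 2 * s) (fun h => cf K s (⟨k.val, _⟩ : Fin b) *
          v (i, (1, sg s hs ⟨k.val, _⟩))) (fun _ => 0) = _
        by_cases he : e = 0
        · by_cases hk : k.val < 2 * s
          · rw [dif_pos ⟨he, hk⟩, if_pos he]
          · rw [dif_neg (fun h => hk h.2), if_pos he]
            have : cf K s k = 0 := by unfold cf; rw [if_neg hk]
            rw [this, zero_mul]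
        · rw [dif_neg (fun h => he h.1), if_neg he]
      · rintro _ ⟨w, rfl⟩
        refine ⟨fun x => if h : (sg s hs x.2.2).val < 2 * s then
          cf K s (sg s hs x.2.2) * w (x.1, ⟨(sg s hs x.2.2).val, h⟩) else 0, trivial, ?_⟩
        ext ⟨i, e, k⟩
        rw [Matrix.mulVecLin_apply, Xm_mulVec]
        change _ = dite (e = 0 ∧ k.val < 2 * s) (fun h => w (i, ⟨k.val, h.2⟩)) (fun _ => 0)
        by_cases he : e = 0
        · by_cases hk : k.val < 2 * s
          · rw [dif_pos (show e = 0 ∧ k.val < 2 * s from ⟨he, hk⟩), if_pos he]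
            simp only [sg_sg]
            rw [dif_pos hk, ← mul_assoc]
            have : cf K s k * cf K s k = 1 := by
              unfold cf; rw [if_pos hk]; split_ifs <;> simp
            rw [this, one_mul]
          · rw [dif_neg (show ¬ (e = 0 ∧ k.val < 2 * s) from fun h => hk h.2), if_pos he]
            have : cf K s k = 0 := by unfold cf; rw [if_neg hk]
            rw [this, zero_mul]
        · rw [dif_neg (show ¬ (e = 0 ∧ k.val < 2 * s) from fun h => he h.1), if_neg he]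
    rw [he, LinearMap.finrank_range_of_inj hf, Module.finrank_fintype_fun_eq_card]
    simp
    omega

end TR
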