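import Pool.Agent.Helper82.TR.Diag
import Pool.Agent.Helper82.TR.E1

/-!
Sharpness of the classification with multiplicities: the group `SL_2 ⊗ SO_2b` (block Q9b).
-/

open Module MTPairs
open scoped Kronecker

namespace TR

namespace E1

variable {K : Type*} [Field K] {b : ℕ}

/-- The unipotent element `1 + 1 ⊗ X`. -/
lemma exists_u [CharZero K] {s : ℕ} (hs : 2 * s ≤ b) :
    ∃ u ∈ GenG (Gens K b), ((u : Matrix.GeneralLinearGroup (Fin 2 × (Fin 2 × Fin b)) K) :
      Matrix _ _ K) - 1 = (1 : Matrix (Fin 2) (Fin 2) K) ⊗ₖ Xm K s hs := by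
  have hP1 : (1 : Matrix (Fin 2) (Fin 2) K) ⊗ₖ Dd K (fun _ : Fin b => (0 : Fin 2)) ∈ Gens K b :=
    Or.inr ⟨_, Dd_mem _, rfl⟩
  have hP2 : (1 : Matrix (Fin 2) (Fin 2) K) ⊗ₖ
      (Dd K (fun _ : Fin b => (0 : Fin 2)) + Xm K s hs) ∈ Gens K b :=
    Or.inr ⟨_, add_mem s hs, rfl⟩
  obtain ⟨g1, hg1, hg1'⟩ := (GenG_cochar (Gens_idem _ hP2) hP2).2 2 two_ne_zero
  obtain ⟨g2, hg2, hg2'⟩ := (GenG_cochar (Gens_idem _ hP1) hP1).2 2⁻¹ (inv_ne_zero two_ne_zero)
  have hDD : Dd K (fun _ : Fin b => (0 : Fin 2)) * Dd K (fun _ : Fin b => (0 : Fin 2)) =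
      Dd K (fun _ : Fin b => (0 : Fin 2)) := (Dd_mem (K := K) (fun _ : Fin b => (0 : Fin 2))).1
  have hXD := Xm_mul_Dd (K := K) s hs
  refine ⟨g1 * g2, (GenG (Gens K b)).mul_mem hg1 hg2, ?_⟩
  generalize Dd K (fun _ : Fin b => (0 : Fin 2)) = D at *
  generalize Xm K s hs = X at *
  have e1 : ∀ (t : K) (P : Matrix (Fin 2 × Fin b) (Fin 2 × Fin b) K),
      t • ((1 : Matrix (Fin 2) (Fin 2) K) ⊗ₖ P) + (1 - (1 : Matrix (Fin 2) (Fin 2) K) ⊗ₖ P) =
      (1 : Matrix (Fin 2) (Fin 2) K) ⊗ₖ (t • P + (1 - P)) := by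
    intro t P
    rw [Matrix.kronecker_add, Matrix.kronecker_smul, kron_sub, Matrix.one_kronecker_one]
  rw [Units.val_mul, hg1', hg2', e1, e1, ← Matrix.mul_kronecker_mul, one_mul]
  have e3 : ((2 : K) • (D + X) + (1 - (D + X))) * ((2⁻¹ : K) • D + (1 - D)) = X + 1 := by
    have h1 : ((2 : K) • (D + X) + (1 - (D + X))) = 1 + D + X := by
      rw [two_smul]; abel
    rw [h1]
    have h2 : (1 + D + X) * ((2⁻¹ : K) • D + (1 - D)) =
        (2⁻¹ : K) • D + 1 - D + ((2⁻¹ : K) • (D * D) + D - D * D) +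
        ((2⁻¹ : K) • (X * D) + X - X * D) := by
      simp only [add_mul, mul_add, mul_sub, one_mul, mul_one, mul_smul_comm, smul_add]
      abel
    rw [h2, hDD, hXD]
    have h3 : (2⁻¹ : K) • D + (2⁻¹ : K) • D = D := by
      rw [← add_smul]
      have : (2⁻¹ : K) + 2⁻¹ = 1 := by norm_num
      rw [this, one_smul]
    calc (2⁻¹ : K) • D + 1 - D + ((2⁻¹ : K) • D + D - D) + ((2⁻¹ : K) • 0 + X - 0)
        = ((2⁻¹ : K) • D + (2⁻¹ : K) • D) - D + (X + 1) := by rw [smul_zero]; abel
      _ = X + 1 := by rw [h3]; abel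
  rw [e3, Matrix.kronecker_add, Matrix.one_kronecker_one]
  abel

/-- The exponents of the Frobenius. -/
def exf (s m : ℕ) (x : Fin 2 × (Fin 2 × Fin b)) : ℤ :=
  if 2 * s ≤ x.2.2.val ∧ x.2.2.val < m then (if x.2.1 = 0 then (x.2.2.val : ℤ) else -x.2.2.val)
  else 0

/-- A diagonal element for one index. -/
lemma exists_one [CharZero K] (k : Fin b) (z : ℤ) :
    ∃ g ∈ GenG (Gens K b), ((g : Matrix.GeneralLinearGroup (Fin 2 × (Fin 2 × Fin b)) K) :
      Matrix (Fin 2 × (Fin 2 × Fin b)) (Fin 2 × (Fin 2 × Fin b)) K) =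
        Matrix.diagonal fun x : Fin 2 × (Fin 2 × Fin b) =>
        (2 : K) ^ (if x.2.2 = k then (if x.2.1 = 0 then z else -z) else 0) := by
  have two0 : (2 : K) ≠ 0 := two_ne_zero
  have hP1 : (1 : Matrix (Fin 2) (Fin 2) K) ⊗ₖ Dd K (fun j : Fin b => if j = k then (0 : Fin 2)
      else 1) ∈ Gens K b := Or.inr ⟨_, Dd_mem _, rfl⟩
  have hP2 : (1 : Matrix (Fin 2) (Fin 2) K) ⊗ₖ Dd K (fun _ : Fin b => (1 : Fin 2)) ∈ Gens K b :=
    Or.inr ⟨_, Dd_mem _, rfl⟩
  obtain ⟨g1, hg1, hg1'⟩ := (GenG_cochar (Gens_idem _ hP1) hP1).2 (2 ^ z) (zpow_ne_zero _ two0)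
  obtain ⟨g2, hg2, hg2'⟩ := (GenG_cochar (Gens_idem _ hP2) hP2).2 (2 ^ (-z)) (zpow_ne_zero _ two0)
  refine ⟨g1 * g2, (GenG (Gens K b)).mul_mem hg1 hg2, ?_⟩
  have e1 : ∀ (t : K) (d : Fin b → Fin 2),
      t • ((1 : Matrix (Fin 2) (Fin 2) K) ⊗ₖ Dd K d) + (1 - (1 : Matrix (Fin 2) (Fin 2) K) ⊗ₖ Dd K d) =
      Matrix.diagonal fun x : Fin 2 × (Fin 2 × Fin b) => if x.2.1 = d x.2.2 then t else 1 := by
    intro t d
    have e2 : (1 : Matrix (Fin 2) (Fin 2) K) ⊗ₖ Dd K d = Matrix.diagonal
        fun x : Fin 2 × (Fin 2 × Fin b) => if x.2.1 = d x.2.2 then (1 : K) else 0 := by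
      rw [Dd, ← Matrix.diagonal_one, Matrix.diagonal_kronecker_diagonal]
      simp
    rw [e2, ← Matrix.diagonal_one, Matrix.diagonal_sub, ← Matrix.diagonal_smul,
      Matrix.diagonal_add]
    congr 1
    funext x
    by_cases h : x.2.1 = d x.2.2 <;> simp [h]
  rw [Units.val_mul, hg1', hg2', e1, e1, Matrix.diagonal_mul_diagonal]
  congr 1
  funext ⟨i, e, j⟩
  have hz : (2 : K) ^ z * 2 ^ (-z) = 1 := by rw [← zpow_add₀ two0]; simp
  by_cases hj : j = k
  · fin_cases e <;> simp [hj]
  · fin_cases e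
    · simp [hj]
    · simp only [hj, if_false]
      simpa using hz

/-- The Frobenius. -/
lemma exists_g [CharZero K] (s m : ℕ) (hm : m ≤ b) :
    ∃ g ∈ GenG (Gens K b), ((g : Matrix.GeneralLinearGroup (Fin 2 × (Fin 2 × Fin b)) K) :
      Matrix (Fin 2 × (Fin 2 × Fin b)) (Fin 2 × (Fin 2 × Fin b)) K) =
        Matrix.diagonal fun x : Fin 2 × (Fin 2 × Fin b) => (2 : K) ^ exf s m x := by
  have two0 : (2 : K) ≠ 0 := two_ne_zero
  induction m with
  | zero =>
    refine ⟨1, (GenG (Gens K b)).one_mem, ?_⟩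
    rw [Units.val_one, ← Matrix.diagonal_one]
    congr 1
    funext x
    simp [exf]
  | succ m ih =>
    obtain ⟨g, hg, hg'⟩ := ih (by omega)
    obtain ⟨h, hh, hh'⟩ := exists_one (K := K) (⟨m, by omega⟩ : Fin b) (if 2 * s ≤ m then m else 0)
    refine ⟨g * h, (GenG (Gens K b)).mul_mem hg hh, ?_⟩
    rw [Units.val_mul, hg', hh', Matrix.diagonal_mul_diagonal]
    congr 1
    funext x
    rw [← zpow_add₀ two0]
    congr 1
    unfold exf
    rcases x with ⟨i, e, ⟨j, hj⟩⟩
    simp only [Fin.mk.injEq]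
    by_cases h1 : j = m
    · subst h1
      by_cases h2 : 2 * s ≤ j
      · simp [h2]
      · simp [h2]
    · by_cases h2 : 2 * s ≤ j
      · have : (j < m + 1) ↔ j < m := by omega
        simp [h1, h2, this]
      · simp [h1, h2]

/-- The coordinates of the image of `1 ⊗ X`. -/
def BB (b s : ℕ) : Finset (Fin 2 × (Fin 2 × Fin b)) :=
  Finset.univ.filter fun x => x.2.1 = 0 ∧ x.2.2.val < 2 * s

/-- The coordinates of the kernel of `1 ⊗ X`. -/
def AA (b s : ℕ) : Finset (Fin 2 × (Fin 2 × Fin b)) :=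
  Finset.univ.filter fun x => ¬ (x.2.1 = 1 ∧ x.2.2.val < 2 * s)

lemma fin2_cases (e : Fin 2) : e = 0 ∨ e = 1 := by fin_cases e <;> simp

lemma card_BB {s : ℕ} (hs : 2 * s ≤ b) : (BB b s).card = 4 * s := by
  have h : BB b s = (Finset.univ : Finset (Fin 2)) ×ˢ (({0} : Finset (Fin 2)) ×ˢ
      (Finset.univ : Finset (Fin (2 * s))).map (Fin.castLEEmb hs)) := by
    ext ⟨i, e, k⟩
    simp only [BB, Finset.mem_filter, Finset.mem_univ, true_and, Finset.mem_product,
      Finset.mem_singleton, Finset.mem_map]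
    constructor
    · rintro ⟨h1, h2⟩
      exact ⟨h1, ⟨⟨k.val, h2⟩, rfl⟩⟩
    · rintro ⟨h1, ⟨j, hj⟩⟩
      refine ⟨h1, ?_⟩
      rw [← hj]
      exact j.2
  rw [h, Finset.card_product, Finset.card_product, Finset.card_map]
  simp
  ring

lemma ker_X {s : ℕ} (hs : 2 * s ≤ b) :
    LinearMap.ker ((1 : Matrix (Fin 2) (Fin 2) K) ⊗ₖ Xm K s hs).mulVecLin =
      suppS K (AA b s) := by
  ext v
  rw [LinearMap.mem_ker, mem_suppS, Matrix.mulVecLin_apply]
  constructor
  · rintro h ⟨i, e, k⟩ hx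
    simp only [AA, Finset.mem_filter, Finset.mem_univ, true_and, not_not] at hx
    obtain ⟨he, hk⟩ := hx
    subst he
    have h1 := congrFun h (i, (0, sg s hs k))
    rw [Xm_mulVec, if_pos rfl] at h1
    simp only [sg_sg, Pi.zero_apply] at h1
    rcases mul_eq_zero.1 h1 with h2 | h2
    · exfalso
      have h3 : (sg s hs k).val < 2 * s := by
        rw [sg_val]
        split_ifs <;> omega
      unfold cf at h2
      rw [if_pos h3] at h2
      split_ifs at h2 <;> simp at h2
    · exact h2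
  · intro h
    funext ⟨i, e, k⟩
    rw [Xm_mulVec, Pi.zero_apply]
    split_ifs
    · by_cases hk : k.val < 2 * s
      · rw [h (i, (1, sg s hs k)), mul_zero]
        simp only [AA, Finset.mem_filter, Finset.mem_univ, true_and, not_not]
        rw [sg_val]
        split_ifs <;> omega
      · unfold cf
        rw [if_neg hk, zero_mul]
    · rfl

lemma range_X {s : ℕ} (hs : 2 * s ≤ b) :
    (⊤ : Submodule K (Fin 2 × (Fin 2 × Fin b) → K)).map
      ((1 : Matrix (Fin 2) (Fin 2) K) ⊗ₖ Xm K s hs).mulVecLin = suppS K (BB b s) := by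
  ext w
  rw [mem_suppS]
  constructor
  · rintro ⟨v, -, rfl⟩ ⟨i, e, k⟩ hx
    rw [Matrix.mulVecLin_apply, Xm_mulVec]
    simp only [BB, Finset.mem_filter, Finset.mem_univ, true_and, not_and, not_lt] at hx
    split_ifs with h
    · have := hx h
      unfold cf
      rw [if_neg (by simpa using this), zero_mul]
    · rfl
  · intro h
    refine ⟨fun x => cf K s (sg s hs x.2.2) * w (x.1, (0, sg s hs x.2.2)), trivial, ?_⟩
    funext ⟨i, e, k⟩
    rw [Matrix.mulVecLin_apply, Xm_mulVec]
    simp only [sg_sg]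
    rcases fin2_cases e with he | he
    · subst he
      rw [if_pos rfl]
      by_cases hk : k.val < 2 * s
      · rw [← mul_assoc]
        have : cf K s k * cf K s k = 1 := by
          unfold cf; rw [if_pos hk]; split_ifs <;> simp
        rw [this, one_mul]
      · rw [h (i, (0, k)) (by simp [BB]; omega)]
        ring
    · subst he
      rw [if_neg (by simp), h (i, (1, k)) (by simp [BB])]

end E1

open E1

/-- Sharpness, Q9b: `SL_2 (x) SO_2b`: rank `4s`, `d = 2`. -/
theorem sharp_plus_so (K : Type*) [Field K] [CharZero K] [IsAlgClosed K] {b s : ℕ}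
    (hb : 2 ≤ b) (hs : 0 < s) (hsb : 2 * s < b) :
    ∃ (m : Type) (_ : Fintype m) (_ : DecidableEq m) (J : Matrix m m K)
      (G : Subgroup (Matrix.GeneralLinearGroup m K)), Fintype.card m = 4 * b ∧
      IsMTPair J G ∧ IsSplit J G (fun _ : Unit => (⊤ : Submodule K (m → K))) ∧
      (∃ u ∈ G, ∃ g ∈ G, IsBad J u g ⊤ (4 * s) 2) ∧
      ¬ IsFull J G (fun _ : Unit => (⊤ : Submodule K (m → K))) := by
  refine ⟨Fin 2 × (Fin 2 × Fin b), inferInstance, inferInstance, Jm K b, GenG (Gens K b), ?_,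
    isMTPair_gen Jm_transpose Jm_det Gens_idem Gens_lag, ?_, ?_, ?_⟩
  · simp only [Fintype.card_prod, Fintype.card_fin]
    ring
  · refine ⟨?_, ?_, fun _ _ _ _ _ => trivial, ?_, ?_⟩
    · rw [DirectSum.isInternal_submodule_iff_iSupIndep_and_iSup_eq_top]
      refine ⟨?_, by simp⟩
      intro i
      simp
    · intro i j hij
      exact absurd (Subsingleton.elim i j) hij
    · intro _ U _ hU
      apply Gens_irr hb
      intro π hπ v hv
      obtain ⟨g, hg, hgt⟩ := (GenG_cochar (Gens_idem π hπ) hπ).2 2 two_ne_zero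
      have h1 := hU g hg v hv
      have h2 : (g : Matrix _ _ K).mulVec v = π.mulVec v + v := by
        rw [hgt]
        have : (2 : K) • π + (1 - π) = π + 1 := by rw [two_smul]; abel
        rw [this, Matrix.add_mulVec, Matrix.one_mulVec]
      rw [h2] at h1
      have := U.sub_mem h1 hv
      rwa [add_sub_cancel_right] at this
    · intro i j hij
      exact absurd (Subsingleton.elim i j) hij
  · have hs' : 2 * s ≤ b := hsb.le
    obtain ⟨u, hu, hu'⟩ := exists_u (K := K) hs'
    obtain ⟨g, hg, hg'⟩ := exists_g (K := K) (b := b) s b le_rfl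
    refine ⟨u, hu, g, hg, ?_⟩
    rw [← card_BB hs']
    have hfib : ∀ z : ℤ, ((AA b s \ BB b s).filter fun x => exf s b x = z) =
        (Finset.univ : Finset (Fin 2)) ×ˢ ((Finset.univ : Finset (Fin 2 × Fin b)).filter
          fun p => 2 * s ≤ p.2.val ∧ (if p.1 = 0 then (p.2.val : ℤ) else -p.2.val) = z) := by
      intro z
      ext ⟨i, e, k⟩
      rw [Finset.mem_filter, Finset.mem_sdiff, Finset.mem_product, Finset.mem_filter]
      simp only [AA, BB, Finset.mem_filter, Finset.mem_univ, true_and]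
      have hex : exf s b (i, e, k) = if 2 * s ≤ k.val then
          (if e = 0 then (k.val : ℤ) else -k.val) else 0 := by
        simp only [exf, k.2, and_true]
      rw [hex]
      constructor
      · rintro ⟨⟨h1, h2⟩, h3⟩
        have h4 : 2 * s ≤ k.val := by
          rcases fin2_cases e with he | he
          · by_contra h
            exact h2 ⟨he, by omega⟩
          · by_contra h
            exact h1 ⟨he, by omega⟩
        rw [if_pos h4] at h3
        exact ⟨h4, h3⟩
      · rintro ⟨h1, h2⟩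
        rw [if_pos h1]
        exact ⟨⟨fun h => absurd h.2 (by omega), fun h => absurd h.2 (by omega)⟩, h2⟩
    refine isBad_of_supp (ex := exf s b) (A := AA b s) (B := BB b s) (e0 := 0) (z0 := 0) hg' ?_ ?_
      ?_ ?_ ?_ ?_ ?_ ?_ ?_ ?_
    · rw [hu', ker_X]
    · rw [hu', range_X]
    · intro x hx
      simp only [AA, BB, Finset.mem_filter, Finset.mem_univ, true_and] at hx ⊢
      rintro ⟨h1, -⟩
      rw [hx.1] at h1
      exact absurd h1 (by simp)
    · rw [← Finset.card_pos, card_BB hs']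
      omega
    · intro x hx
      simp only [BB, Finset.mem_filter, Finset.mem_univ, true_and] at hx
      simp only [exf]
      rw [if_neg (by omega)]
    · rintro ⟨i, e, k⟩ ⟨i', e', k'⟩ h
      have h2 : ((e', k') : Fin 2 × Fin b) = (e + 1, k) := by
        by_contra hc
        have hJ : Jm K b (i, (e, k)) (i', (e', k')) = Em K i i' * Qm K b (e, k) (e', k') := rfl
        have hQ : Qm K b (e, k) (e', k') = 0 := if_neg hc
        rw [hJ, hQ, mul_zero] at h
        exact h rfl
      simp only [Prod.mk.injEq] at h2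
      obtain ⟨rfl, rfl⟩ := h2
      simp only [exf]
      split_ifs with h3 h4 h5 h5
      · rcases fin2_cases e with he | he
        · subst he; simp at h5
        · subst he; simp at h4
      · ring
      · ring
      · rcases fin2_cases e with he | he
        · subst he; simp at h4
        · subst he; simp at h5
      · ring
    · rw [card_BB hs']
      exact ⟨2 * s, by ring⟩
    · intro z _
      rw [hfib, Finset.card_product, Finset.card_univ, Fintype.card_fin]
      exact dvd_mul_right _ _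
    · intro z hz
      have hz0 : z = 0 := by omega
      rw [hfib, Finset.card_product]
      have : ((Finset.univ : Finset (Fin 2 × Fin b)).filter
          fun p => 2 * s ≤ p.2.val ∧ (if p.1 = 0 then (p.2.val : ℤ) else -p.2.val) = z) = ∅ := by
        rw [Finset.filter_eq_empty_iff]
        rintro ⟨e, k⟩ _ ⟨h1, h2⟩
        simp only at h1 h2
        rw [hz0] at h2
        split_ifs at h2 <;> omega
      rw [this]
      simp
    · intro e _ he
      have h := he ((b : ℤ) - 1) (by omega)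
      rw [hfib, Finset.card_product, Finset.card_univ, Fintype.card_fin] at h
      have : ((Finset.univ : Finset (Fin 2 × Fin b)).filter
          fun p => 2 * s ≤ p.2.val ∧ (if p.1 = 0 then (p.2.val : ℤ) else -p.2.val) = (b : ℤ) - 1) =
          {(0, ⟨b - 1, by omega⟩)} := by
        ext ⟨e, k⟩
        simp only [Finset.mem_filter, Finset.mem_univ, true_and, Finset.mem_singleton,
          Prod.mk.injEq]
        constructor
        · rintro ⟨h1, h2⟩
          rcases fin2_cases e with he | he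
          · rw [if_pos he] at h2
            exact ⟨he, Fin.ext (by simp only; omega)⟩
          · rw [if_neg (by rw [he]; simp)] at h2
            omega
        · rintro ⟨rfl, rfl⟩
          simp only [if_true]
          exact ⟨by omega, by omega⟩
      rw [this, Finset.card_singleton, mul_one] at h
      exact h
  · intro hfull
    obtain ⟨g, hg, hgd⟩ := exists_not_dec (K := K) (b := b) (by omega)
    apply hgd
    have h1 := hfull g ⟨1, hg⟩ (fun _ _ _ => trivial)
    exact GenG_le (Dec_closed (by omega)) Gens_dec h1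

end TR
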